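import Pool.Agent.KACG.Slopes

/-!
# Squad KACG, row S_SLO: main output of the block SLOPES
-/

set_option autoImplicit false

open scoped ComplexConjugate ContDiff

noncomputable section

namespace Pool.Agent.KACG.H44

open Pool.Agent.KACG

theorem per_deriv {f : ℝ → ℝ} {a : ℝ} (h : Function.Periodic f a) :
    Function.Periodic (deriv f) a := by
  intro x
  have h1 : (fun y => f (y + a)) = f := funext h
  rw [← deriv_comp_add_const, h1]

theorem slopes_eq {L : ℝ} {κ : ℝ → ℝ} {c a : ℝ} {r : ℕ} {p : Fin r → ℝ}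
    (W : Wells L κ c a r p) :
    {w : ℝ | ∃ s, κ s = c ∧ w = |deriv κ s|} = Set.range (fun i => |deriv κ (p i)|) := by
  ext w
  constructor
  · rintro ⟨s, hs, rfl⟩
    have h1 := toIcoMod_mem_Ico W.pos a s
    have h2 : toIcoMod W.pos a s = s - toIcoDiv W.pos a s • L := rfl
    have h3 : κ (toIcoMod W.pos a s) = c := by
      rw [h2, W.per.sub_zsmul_eq, hs]
    obtain ⟨i, hi⟩ := W.all _ ⟨h1.1, h1.2.le⟩ h3
    refine ⟨i, ?_⟩
    show |deriv κ (p i)| = |deriv κ s|
    rw [← hi, h2, (per_deriv W.per).sub_zsmul_eq]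
  · rintro ⟨i, rfl⟩
    exact ⟨p i, W.val i, rfl⟩

theorem s_slo (hW : WelStmt) (hC : CntStmt) (hM : MulStmt) : SloStmt := by
  intro L κ κ' c hL hκ hκ' hp hp' hr hr' hd
  obtain ⟨a, r, p, W⟩ := hW L κ c hL hκ hp hr
  obtain ⟨a', r', p', W'⟩ := hW L κ' c hL hκ' hp' hr'
  rw [slopes_eq W, slopes_eq W']
  exact hM r r' _ _ (fun i => abs_pos.mpr (W.reg i)) (fun i => abs_pos.mpr (W'.reg i))
    (fun e n n' he h1 h2 => hC L κ κ' c a a' r r' p p' W W' hd e n n' he h1 h2)

end Pool.Agent.KACG.H44
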